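import Mathlib
import Pool.Agent.Lib.MP_2c91bd_gt.Hoare

set_option autoImplicit false

open TopologicalSpace Set

namespace Pool.Agent.Results.MP_2c91bd_gt.HoareDissonant

/-- A family of open sets is Scott open: an upper set in the lattice of open sets that already
contains a member of every nonempty directed family whose union it contains. -/
def ScottOpen {X : Type} [TopologicalSpace X] (F : Set (Opens X)) : Prop :=
  IsUpperSet F ∧
    ∀ D : Set (Opens X), D.Nonempty → DirectedOn (· ≤ ·) D → sSup D ∈ F → ∃ U ∈ D, U ∈ F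

/-- The open sets containing `K`. -/
def Phi {X : Type} [TopologicalSpace X] (K : Set X) : Set (Opens X) :=
  {U | K ⊆ (U : Set X)}

/-- Every Scott-open family of open sets is a union of families `Phi K` with `K` compact. -/
def Consonant (X : Type) [TopologicalSpace X] : Prop :=
  ∀ F : Set (Opens X), ScottOpen F →
    ∃ C : Set (Set X), (∀ K ∈ C, IsCompact K) ∧ F = ⋃ K ∈ C, Phi K

/-- The nonempty closed subsets of `X`. -/
def Hoare (X : Type) [TopologicalSpace X] : Type :=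
  {A : Set X // IsClosed A ∧ A.Nonempty}

/-- The lower Vietoris topology, generated by the sets of closed sets meeting an open set. -/
instance lowerVietoris (X : Type) [TopologicalSpace X] : TopologicalSpace (Hoare X) :=
  generateFrom {S | ∃ U : Set X, IsOpen U ∧ S = {A : Hoare X | (A.1 ∩ U).Nonempty}}

theorem consonant_iff (X : Type) [TopologicalSpace X] : Consonant X ↔
    ∀ 𝓤 : Set (Set X), (∀ U ∈ 𝓤, IsOpen U) →
      (∀ U ∈ 𝓤, ∀ V : Set X, IsOpen V → U ⊆ V → V ∈ 𝓤) →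
      (∀ 𝒟 : Set (Set X), 𝒟.Nonempty → DirectedOn (· ⊆ ·) 𝒟 →
          (∀ D ∈ 𝒟, IsOpen D) → ⋃₀ 𝒟 ∈ 𝓤 → ∃ D ∈ 𝒟, D ∈ 𝓤) →
      ∀ U ∈ 𝓤, ∃ K : Set X, IsCompact K ∧ K ⊆ U ∧
        ∀ V : Set X, IsOpen V → K ⊆ V → V ∈ 𝓤 := by
  constructor
  · intro h 𝓤 ho hup hS U hU
    have hF : ScottOpen {W : Opens X | (W : Set X) ∈ 𝓤} := by
      refine ⟨fun A B hAB hA => hup _ hA _ B.isOpen hAB, fun D hD hd hs => ?_⟩
      have hdir : DirectedOn (· ⊆ ·) ((fun W : Opens X => (W : Set X)) '' D) := by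
        rintro _ ⟨A, hA, rfl⟩ _ ⟨B, hB, rfl⟩
        obtain ⟨E, hE, h1, h2⟩ := hd A hA B hB
        exact ⟨E, ⟨E, hE, rfl⟩, h1, h2⟩
      have hun : ⋃₀ ((fun W : Opens X => (W : Set X)) '' D) ∈ 𝓤 := by
        have : ((sSup D : Opens X) : Set X) = ⋃₀ ((fun W : Opens X => (W : Set X)) '' D) := by
          rw [Opens.coe_sSup, sUnion_image]
        rw [← this]; exact hs
      obtain ⟨_, ⟨W, hW, rfl⟩, hW'⟩ := hS _ (hD.image _) hdir
        (by rintro _ ⟨W, _, rfl⟩; exact W.isOpen) hun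
      exact ⟨W, hW, hW'⟩
    obtain ⟨C, hC, hFC⟩ := h _ hF
    have hmem : (⟨U, ho U hU⟩ : Opens X) ∈ {W : Opens X | (W : Set X) ∈ 𝓤} := hU
    rw [hFC] at hmem
    obtain ⟨K, hK, hKU⟩ := mem_iUnion₂.1 hmem
    refine ⟨K, hC K hK, hKU, fun V hV hKV => ?_⟩
    have : (⟨V, hV⟩ : Opens X) ∈ {W : Opens X | (W : Set X) ∈ 𝓤} := by
      rw [hFC]; exact mem_iUnion₂.2 ⟨K, hK, hKV⟩
    exact this
  · intro h F hF
    refine ⟨{K | IsCompact K ∧ Phi K ⊆ F}, fun K hK => hK.1, ?_⟩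
    refine Subset.antisymm (fun U hU => ?_) (iUnion₂_subset fun K hK => hK.2)
    have key := h ((fun W : Opens X => (W : Set X)) '' F)
      (by rintro _ ⟨W, _, rfl⟩; exact W.isOpen)
      (by
        rintro _ ⟨W, hW, rfl⟩ V hV hWV
        exact ⟨⟨V, hV⟩, hF.1 (show W ≤ ⟨V, hV⟩ from hWV) hW, rfl⟩)
      (by
        rintro 𝒟 ⟨D0, hD0⟩ hd ho ⟨W, hW, hWe⟩
        have hs : sSup {A : Opens X | (A : Set X) ∈ 𝒟} = W := by
          apply Opens.ext
          rw [Opens.coe_sSup]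
          change _ = (fun W : Opens X => (W : Set X)) W
          rw [hWe]
          ext x
          simp only [mem_iUnion, mem_sUnion, mem_setOf_eq, exists_prop]
          exact ⟨fun ⟨A, hA, hx⟩ => ⟨A, hA, hx⟩, fun ⟨A, hA, hx⟩ => ⟨⟨A, ho A hA⟩, hA, hx⟩⟩
        obtain ⟨A, hA, hAF⟩ := hF.2 {A : Opens X | (A : Set X) ∈ 𝒟} ⟨⟨D0, ho D0 hD0⟩, hD0⟩
          (by
            intro A hA B hB
            obtain ⟨E, hE, h1, h2⟩ := hd _ hA _ hB
            exact ⟨⟨E, ho E hE⟩, hE, h1, h2⟩)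
          (hs ▸ hW)
        exact ⟨A, hA, A, hAF, rfl⟩)
      U ⟨U, hU, rfl⟩
    obtain ⟨K, hK, hKU, hV⟩ := key
    refine mem_iUnion₂.2 ⟨K, ⟨hK, fun V hKV => ?_⟩, hKU⟩
    obtain ⟨W, hW, hWV⟩ := hV V V.isOpen hKV
    have : W = V := Opens.ext hWV
    exact this ▸ hW

open Pool.Agent.Lib.MP_2c91bd_gt in
theorem countable_pt : Countable Pt := by
  have : Function.Surjective (fun x : Option (Option (ℕ × ℕ)) =>
      match x with
      | none => Pt.a
      | some none => Pt.b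
      | some (some p) => Pt.d p.1 p.2) := by
    intro y
    cases y with
    | a => exact ⟨none, rfl⟩
    | b => exact ⟨some none, rfl⟩
    | d i j => exact ⟨some (some (i, j)), rfl⟩
  exact this.countable

open Pool.Agent.Lib.MP_2c91bd_gt in
theorem sober_pt : QuasiSober Pt := by
  refine ⟨fun {S} hS hc => ?_⟩
  have hd : ∀ i j, IsOpen ({Pt.d i j} : Set Pt) := fun i j =>
    (isOpen_iff _).2 ⟨fun h => (by cases h), fun h => (by cases h)⟩
  have sing : ∀ x, S = {x} → ∃ x, IsGenericPoint x S := fun x hx =>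
    ⟨x, by rw [hx]; exact isClosed_singleton.closure_eq⟩
  have hsub : ∀ x ∈ S, ∀ y ∈ S, ∀ U V : Set Pt, IsOpen U → IsOpen V → x ∈ U → y ∈ V →
      (S ∩ (U ∩ V)).Nonempty := fun x hx y hy U V hU hV h1 h2 =>
    hS.2 U V hU hV ⟨x, hx, h1⟩ ⟨y, hy, h2⟩
  by_cases h : ∃ i j, Pt.d i j ∈ S
  · obtain ⟨i, j, hij⟩ := h
    refine sing (Pt.d i j) (eq_singleton_iff_unique_mem.2 ⟨hij, fun y hy => ?_⟩)
    by_contra hne
    obtain ⟨z, -, hz1, hz2⟩ := hsub _ hij y hy _ _ (hd i j)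
      (isOpen_compl_singleton (x := Pt.d i j)) rfl hne
    exact hz2 hz1
  · obtain ⟨x, hx⟩ := hS.1
    refine sing x (eq_singleton_iff_unique_mem.2 ⟨hx, fun y hy => ?_⟩)
    by_contra hne
    obtain ⟨z, hz, hz1, hz2⟩ := hsub x hx y hy _ _ (isOpen_compl_singleton (x := y))
      (isOpen_compl_singleton (x := x)) (fun e => hne e.symm) hne
    have nd : ∀ w ∈ S, w = Pt.a ∨ w = Pt.b := by
      intro w hw
      cases w with
      | a => exact Or.inl rfl
      | b => exact Or.inr rfl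
      | d i j => exact absurd ⟨i, j, hw⟩ h
    rcases nd x hx with rfl | rfl <;> rcases nd y hy with rfl | rfl <;>
      rcases nd z hz with rfl | rfl <;> simp_all

/-- There is a countable sober T1 consonant space whose Hoare power space is not consonant. -/
theorem result :
    ∃ (X : Type) (_ : TopologicalSpace X), Countable X ∧ T1Space X ∧ QuasiSober X ∧
      Consonant X ∧ ¬ Consonant (Hoare X) := by
  refine ⟨Pool.Agent.Lib.MP_2c91bd_gt.Pt, inferInstance, countable_pt, inferInstance, sober_pt,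
    (consonant_iff _).2 fun 𝓤 ho hup hS U hU =>
      Pool.Agent.Lib.MP_2c91bd_gt.consonant 𝓤 hup hS U (ho U hU) hU, fun h => ?_⟩
  obtain ⟨K, hK, hKW, hV⟩ := (consonant_iff _).1 h Pool.Agent.Lib.MP_2c91bd_gt.fam
    (fun U hU => hU.1) Pool.Agent.Lib.MP_2c91bd_gt.fam_up
    (fun 𝒟 _ hd ho hU => Pool.Agent.Lib.MP_2c91bd_gt.fam_scott 𝒟 hd ho hU)
    Pool.Agent.Lib.MP_2c91bd_gt.W0 Pool.Agent.Lib.MP_2c91bd_gt.W0_mem
  obtain ⟨V, hVo, hKV, hVn⟩ := Pool.Agent.Lib.MP_2c91bd_gt.not_consonant K hK hKW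
  exact hVn (hV V hVo hKV)

end Pool.Agent.Results.MP_2c91bd_gt.HoareDissonant
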